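import Pool.Agent.H.MP_8a71fe_al.A

set_option autoImplicit false

namespace Pool.Agent.HShift

open Finset Module Submodule

variable {n : ℕ} {K : Type} [Field K]

def cz (K : Type) [Field K] {ι : Type} : (ι → ℤ) →ₗ[ℤ] ι → K :=
  ((Int.castAddHom K).compLeft ι).toIntLinearMap

lemma mono_span {ι : Type} [Fintype ι] (S : Set (ι → ℤ)) :
    finrank K (span K (cz K '' S)) ≤ finrank ℚ (span ℚ (cz ℚ '' S)) := by
  let b := finBasis ℤ (span ℤ S)
  have h1 : span K (cz K '' S) ≤ span K (Set.range fun i => cz K (b i).1) := by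
    rw [span_le]
    rintro _ ⟨s, hs, rfl⟩
    have := congrArg (fun x : span ℤ S => cz K x.1) (b.sum_repr ⟨s, subset_span hs⟩)
    simp only [AddSubmonoidClass.coe_finset_sum, SetLike.val_smul, map_sum, map_zsmul] at this
    exact this ▸ sum_mem fun i _ => zsmul_mem (subset_span (Set.mem_range_self i)) _
  have h2 : LinearIndependent ℚ fun i => cz ℚ (b i).1 := (LinearIndependent.iff_fractionRing ℤ ℚ).1
    ((b.linearIndependent.map' _ (ker_subtype _)).map' (cz ℚ) (LinearMap.ker_eq_bot.2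
      fun x y h => funext fun j => Int.cast_injective (congrFun h j)))
  refine (finrank_mono h1).trans ((finrank_range_le_card _).trans ?_)
  rw [← finrank_span_eq_card h2]
  refine finrank_mono (span_le.2 ?_)
  rintro _ ⟨i, rfl⟩
  exact span_subset_span ℤ ℚ _ (map_span (cz ℚ) S ▸ mem_map_of_mem (b i).2)

def bdZ (w : Finset (Fin n) → ℤ) (G : Finset (Fin n)) : ℤ :=
  ∑ j ∈ Gᶜ, (-1) ^ #{g ∈ G | g < j} * w (insert j G)

lemma cz_bd (w : Finset (Fin n) → ℤ) : cz K (bdZ w) = bd (cz K w) := by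
  ext G
  simp [cz, bdZ, bd, sg]

variable {Δ : Finset (Fin n) → Prop} {i : ℕ}

lemma rk_le : rk K Δ i ≤ rk ℚ Δ i := by
  refine (finrank_mono ?_).trans ((mono_span (K := K) (bdZ '' {w | Supp Δ i (cz ℚ w)})).trans
    (finrank_mono (span_le.2 ?_)))
  · rintro _ ⟨c, hc, rfl⟩
    rw [pi_eq_sum_univ c, map_sum]
    refine sum_mem fun F _ => ?_
    by_cases h : c F = 0
    · simp [h]
    rw [map_smul]
    refine smul_mem _ _ (subset_span ⟨_, ⟨fun G => if F = G then 1 else 0, fun G hG => ?_, rfl⟩,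
      (cz_bd _).trans (congrArg bdL (funext fun G => by simp [cz]))⟩)
    obtain rfl : F = G := by simpa [cz] using hG
    exact mem_Ch.1 hc F h
  · rintro _ ⟨_, ⟨w, h, rfl⟩, rfl⟩
    exact ⟨_, mem_Ch.2 h, (cz_bd w).symm⟩

def fh (W : Finset (Fin n)) (h : Fin n → K) (F : Finset (Fin n)) : K :=
  ∑ u ∈ Fᶜ, sg K u F * if insert u F = W then h u else 0

lemma fh_eq {W F : Finset (Fin n)} {u : Fin n} (h : Fin n → K) (h1 : u ∉ F) (h2 : insert u F = W) :
    fh W h F = sg K u F * h u := by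
  rw [fh, sum_eq_single u (fun v hv h3 => ?_) (by simp [h1]), if_pos h2]
  rw [if_neg fun h4 => ?_, mul_zero]
  have : v ∈ insert u F := by simp [h2, ← h4]
  simpa [h3, mem_compl.1 hv] using this

lemma fh_ne {W F : Finset (Fin n)} {h : Fin n → K} (h0 : fh W h F ≠ 0) :
    ∃ u ∉ F, insert u F = W :=
  let ⟨u, h1, h2⟩ := exists_ne_zero_of_sum_ne_zero h0
  ⟨u, mem_compl.1 h1, (ite_ne_right_iff.1 (right_ne_zero_of_mul h2)).1⟩

lemma bd_fh {W F : Finset (Fin n)} {u w : Fin n} (h : Fin n → K) (h1 : u ∉ insert w F) (h2 : w ∉ F)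
    (h3 : insert u (insert w F) = W) : bd (fh W h) F = 0 ↔ h u = h w := by
  rw [mem_insert, not_or] at h1
  rw [bd, sum_eq_add_of_mem u w (mem_compl.2 h1.2) (mem_compl.2 h2) h1.1 fun j hj h4 => ?_,
    fh_eq h (u := u) (by simp [h1]) h3, fh_eq h (u := w) (by simp [h2, Ne.symm h1.1])
      (insert_comm u w F ▸ h3)]
  · have e : sg K u F * sg K w (insert u F) = -(sg K w F * sg K u (insert w F)) := by
      linear_combination sg K u F * sg K u (insert w F) * sg_swap (K := K) h1.1 h1.2 h2 -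
        sg K u F * sg K w (insert u F) * sg_sq (K := K) u (insert w F) -
        sg K w F * sg K u (insert w F) * sg_sq (K := K) u F
    rw [← mul_assoc, ← mul_assoc, e, neg_mul, neg_add_eq_zero,
      mul_right_inj' (mul_ne_zero (sg_ne _ _) (sg_ne _ _)), eq_comm]
  · refine mul_eq_zero_of_right _ (by_contra fun h5 => ?_)
    obtain ⟨v, -, h6⟩ := fh_ne h5
    have : j ∈ insert u (insert w F) := by simp [h3, ← h6]
    simpa [h4, mem_compl.1 hj] using this

lemma rk_top (W : Finset (Fin n)) (hW : #W = i + 2) (h : ∀ F, Δ F → F ⊆ W) :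
    rk K Δ i = rk ℚ Δ i := by
  classical
  refine le_antisymm rk_le (le_of_add_le_add_right (a := finrank K (Ch K Δ i ⊓ LinearMap.ker bdL :))
    ((add_le_add_right ?_ _).trans (rk_add.trans rk_add.symm).le))
  refine (finrank_mono ?_).trans ((mono_span (K := K)
    {z | cz ℚ z ∈ Ch ℚ Δ i ⊓ LinearMap.ker bdL}).trans (finrank_mono (span_le.2 ?_)))
  swap
  · rintro _ ⟨z, h, rfl⟩
    exact h
  rintro c ⟨h1, h2⟩
  obtain ⟨v, hv⟩ := card_pos.1 (show 0 < #W by omega)
  let g := fun u => sg K u (W.erase u) * cone v c (W.erase u)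
  have e1 : cone v c = fh W g := funext fun F => by
    by_cases h3 : ∃ u ∉ F, insert u F = W
    · obtain ⟨u, h3, h4⟩ := h3
      rw [fh_eq g h3 h4]
      simp only [g, ← h4, erase_insert h3]
      rw [← mul_assoc, sg_sq, one_mul]
    · rw [not_not.1 fun h4 => h3 (fh_ne h4)]
      by_contra h4
      obtain ⟨h5, h6⟩ := Supp.cone (Δ := (· ⊆ W)) (mem_Ch.1 h1)
        (fun F _ h5 _ => insert_subset hv (h F h5)) F h4
      obtain ⟨u, h7⟩ := exists_eq_insert_iff.2 ⟨h5, h6.symm ▸ hW.symm⟩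
      exact h3 ⟨u, h7⟩
  have e2 : c = bd (fh W g) := by rw [← e1, bd_cone, show bd c = 0 from h2, cone_zero, sub_zero]
  let z := fun (t : K) (F : Finset (Fin n)) =>
    ∑ u ∈ Fᶜ, (-1 : ℤ) ^ #{g ∈ F | g < u} * if insert u F = W ∧ g u = t then 1 else 0
  have e3 : ∀ (L : Type) [Field L] t, cz L (z t) = fh W fun u => if g u = t then 1 else 0 :=
    fun L _ t => funext fun F => by simp [cz, z, fh, sg, ite_and]
  have e4 : fh W g = ∑ t ∈ univ.image g, t • cz K (z t) := funext fun F => by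
    simp only [e3, fh, Finset.sum_apply, Pi.smul_apply, smul_eq_mul, mul_sum]
    rw [sum_comm]
    exact sum_congr rfl fun u _ => by split_ifs <;> simp [mul_comm]
  rw [e2, e4, show bd = bdL (K := K) (n := n) from rfl, map_sum]
  refine sum_mem fun t _ => ?_
  rw [map_smul]
  refine smul_mem _ _ (subset_span ⟨bdZ (z t), ?_, cz_bd _⟩)
  rw [Set.mem_ofPred_eq, cz_bd, e3]
  refine ⟨mem_Ch.2 fun F hF => mem_Ch.1 h1 F fun h3 => hF ?_, bd_bd _⟩
  obtain ⟨w, h4, h5⟩ := exists_ne_zero_of_sum_ne_zero hF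
  obtain ⟨u, h6, h7⟩ := fh_ne (right_ne_zero_of_mul h5)
  rw [e2, bd_fh _ h6 (mem_compl.1 h4) h7] at h3
  rw [bd_fh _ h6 (mem_compl.1 h4) h7, h3]

end Pool.Agent.HShift
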