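import Pool.Agent.H.MP_01886a_al.A

set_option autoImplicit false

namespace Pool.Agent.HShift

open Finset Module Submodule

variable {n : ℕ} {K : Type} [Field K]

def up (F : Finset (Fin n)) : Finset (Fin (n + 1)) := F.map (Fin.succEmb n)

lemma up0 (F : Finset (Fin n)) : 0 ∉ up F := by simp [up]

lemma up_mem {F : Finset (Fin n)} {j : Fin n} : j.succ ∈ up F ↔ j ∈ F := by simp [up]

lemma up_ins (F : Finset (Fin n)) (j : Fin n) : up (insert j F) = insert j.succ (up F) := by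
  simp [up]

def pre (G : Finset (Fin (n + 1))) : Finset (Fin n) := {j | j.succ ∈ G}

lemma all_up {P : Finset (Fin (n + 1)) → Prop} (h : ∀ F, P (up F)) (h' : ∀ F, P (insert 0 (up F)))
    (G : Finset (Fin (n + 1))) : P G := by
  by_cases h0 : 0 ∈ G
  · convert h' (pre G)
    ext j
    cases j using Fin.cases <;> simp [up_mem, pre, h0]
  · convert h (pre G)
    ext j
    cases j using Fin.cases <;> simp [up_mem, up0, pre, h0]

lemma sg_up (F : Finset (Fin n)) (j : Fin n) : sg K j.succ (up F) = sg K j F := by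
  rw [sg, sg, up, filter_map, card_map]
  simp [Function.comp_def]

def lk : (Finset (Fin (n + 1)) → K) →ₗ[K] Finset (Fin n) → K :=
  LinearMap.funLeft K K fun F => insert 0 (up F)

def dl : (Finset (Fin (n + 1)) → K) →ₗ[K] Finset (Fin n) → K := LinearMap.funLeft K K up

lemma sum_compl {m : ℕ} (G : Finset (Fin m)) (f : Fin m → K) :
    ∑ j ∈ Gᶜ, f j = ∑ j, if j ∈ G then 0 else f j := by
  simp only [← ite_not (_ ∈ G), ← mem_compl, sum_ite_mem, univ_inter]

lemma lk_bd (c : Finset (Fin (n + 1)) → K) : lk (bd c) = -bd (lk c) := by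
  ext F
  simp only [lk, LinearMap.funLeft_apply, bd, Pi.neg_apply, sum_compl, Fin.sum_univ_succ,
    mem_insert_self, if_true, zero_add, ← sum_neg_distrib]
  refine sum_congr rfl fun j _ => ?_
  simp only [mem_insert, Fin.succ_ne_zero, false_or, up_mem]
  split_ifs
  · simp
  · rw [up_ins, insert_comm, ← sg_up F, sg, sg, filter_insert, if_pos (Fin.succ_pos j),
      card_insert_of_notMem (by simp [up0])]
    ring

lemma dl_bd (c : Finset (Fin (n + 1)) → K) : dl (bd c) = lk c + bd (dl c) := by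
  ext F
  simp [lk, dl, bd, sum_compl, Fin.sum_univ_succ, up0, up_mem, up_ins, sg_up,
    show sg K 0 (up F) = 1 by simp [sg]]

def mk (c d : Finset (Fin n) → K) (G : Finset (Fin (n + 1))) : K :=
  if 0 ∈ G then c (pre G) else d (pre G)

lemma lk_mk (c d : Finset (Fin n) → K) : lk (mk c d) = c := by
  ext F
  simp [lk, mk, pre, up_mem]

lemma dl_mk (c d : Finset (Fin n) → K) : dl (mk c d) = d := by
  ext F
  simp [dl, mk, pre, up_mem, up0]

variable {Δ : Finset (Fin (n + 1)) → Prop} {i : ℕ}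

lemma ch_iff {c : Finset (Fin (n + 1)) → K} : c ∈ Ch K Δ (i + 1) ↔
    lk c ∈ Ch K (fun F => Δ (insert 0 (up F))) i ∧ dl c ∈ Ch K (fun F => Δ (up F)) (i + 1) := by
  simp only [mem_Ch]
  refine ⟨fun h => ⟨fun F hF => ?_, fun F hF => ?_⟩, fun h => all_up (fun F hF => ?_) fun F hF => ?_⟩
  · simpa [card_insert_of_notMem (up0 F), up] using h _ hF
  · simpa [up] using h _ hF
  · simpa [up] using h.2 _ hF
  · simpa [card_insert_of_notMem (up0 F), up] using h.1 _ hF

lemma fr {V W : Type} [AddCommGroup V] [Module K V] [AddCommGroup W] [Module K W]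
    [FiniteDimensional K V] (p : Submodule K V) (f : V →ₗ[K] W) :
    finrank K p = finrank K (p.map f) + finrank K (p ⊓ LinearMap.ker f :) := by
  rw [← (f.domRestrict p).finrank_range_add_finrank_ker, LinearMap.range_domRestrict,
    LinearMap.ker_domRestrict, ← map_comap_subtype, finrank_map_subtype_eq]

lemma rk_ld (hΔ : Down Δ) (h : Van K (fun F => Δ (up F)) i) : rk K Δ (i + 1) =
    rk K (fun F => Δ (insert 0 (up F))) i + rk K (fun F => Δ (up F)) (i + 1) := by
  rw [rk, fr _ lk, fr (_ ⊓ _) dl, show _ ⊓ LinearMap.ker lk ⊓ LinearMap.ker dl = ⊥ from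
    eq_bot_iff.2 fun c hc => funext (all_up (congrFun hc.2) (congrFun hc.1.2)), finrank_bot,
    add_zero, rk, rk]
  refine congrArg₂ (fun p q : Submodule K _ => finrank K p + finrank K q) (le_antisymm ?_ ?_)
    (le_antisymm ?_ ?_)
  · rintro _ ⟨_, ⟨c, h1, rfl⟩, rfl⟩
    exact ⟨-lk c, neg_mem (ch_iff.1 h1).1, (map_neg _ _).trans (lk_bd c).symm⟩
  · rintro _ ⟨c, h1, rfl⟩
    exact ⟨_, ⟨mk (-c) 0, ch_iff.2 ⟨by rw [lk_mk]; exact neg_mem h1, by rw [dl_mk]; exact zero_mem _⟩,
      rfl⟩, (lk_bd _).trans (by rw [lk_mk]; exact (map_neg bdL _).symm.trans (by rw [neg_neg]))⟩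
  · rintro _ ⟨x, ⟨h1, h2⟩, rfl⟩
    obtain ⟨h3, h4⟩ := bd_le hΔ h1
    obtain ⟨w, h5, h6⟩ := h (dl x) (fun F hF => by simpa [up] using mem_Ch.1 h3 _ hF) (by
      have := dl_bd x
      rwa [show bd x = 0 from h4, show lk x = 0 from h2, map_zero, zero_add, eq_comm] at this)
    exact ⟨w, mem_Ch.2 h5, h6⟩
  · rintro _ ⟨w, h1, rfl⟩
    exact ⟨_, ⟨⟨mk 0 w, ch_iff.2 ⟨by rw [lk_mk]; exact zero_mem _, by rwa [dl_mk]⟩, rfl⟩,
      (lk_bd _).trans (by rw [lk_mk, bd_zero, neg_zero])⟩,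
      (dl_bd _).trans (by rw [lk_mk, dl_mk, zero_add]; rfl)⟩

end Pool.Agent.HShift
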